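import Pool.Agent.H487.GP.Stm2

/-!
Project GP (helper487): `S_LAWU` from `S_CDFU` and `S_PERSU` (helper353).
-/

set_option autoImplicit false

open Finset Complex Filter Topology Metric Set MeasureTheory

namespace Pool.Agent.H353.GP.U

open Pool.Agent.H487.GA Pool.Agent.H487.GP

theorem meas_SS (a b : ℝ) : MeasurableSet (SS a b) := by
  have h : SS a b = ⋃ j : ℤ, {x : ℝ | a ≤ j - x / Real.pi ∧ j - x / Real.pi ≤ b} := by
    ext x
    simp only [SS, Set.mem_ofPred_eq, Set.mem_iUnion]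
  rw [h]
  refine MeasurableSet.iUnion fun j => ?_
  have h1 : Measurable fun x : ℝ => (j : ℝ) - x / Real.pi := by fun_prop
  exact (measurableSet_le measurable_const h1).inter (measurableSet_le h1 measurable_const)

theorem vv_pos {v : ℝ} (hv : v ≠ 0) : 0 < vv v := by
  unfold vv
  have : 0 < v ^ 2 := by positivity
  exact div_pos (Real.log_pos (by linarith)) (by norm_num)

theorem vol_le (T : ℝ) (hT : 0 < T) (X : ℝ → ℝ)
    (hX : AEMeasurable X (volume.restrict (Set.Icc T (2 * T))))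
    (hp : IsProbabilityMeasure (law T X)) (S : Set ℝ) (hS : MeasurableSet S) (p : ℝ)
    (h : (law T X).real S ≤ p) :
    volume {t : ℝ | t ∈ Icc T (2 * T) ∧ X t ∈ S} ≤ ENNReal.ofReal (p * T) := by
  have h1 : (law T X) S = ENNReal.ofReal (1 / T) *
      volume {t : ℝ | t ∈ Icc T (2 * T) ∧ X t ∈ S} := by
    unfold law
    rw [Measure.map_apply_of_aemeasurable (hX.smul_measure _) hS, Measure.smul_apply, smul_eq_mul,
      Measure.restrict_apply₀ (hX.nullMeasurableSet_preimage hS)]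
    congr 2
    ext t
    simp only [Set.mem_inter_iff, Set.mem_preimage, Set.mem_ofPred_eq]
    exact and_comm
  have h2 : volume {t : ℝ | t ∈ Icc T (2 * T) ∧ X t ∈ S} = ENNReal.ofReal T * (law T X) S := by
    rw [h1, ← mul_assoc, ← ENNReal.ofReal_mul hT.le, mul_one_div, div_self hT.ne',
      ENNReal.ofReal_one, one_mul]
  rw [h2, ← ENNReal.ofReal_toReal (measure_ne_top (law T X) S), ← ENNReal.ofReal_mul hT.le]
  refine ENNReal.ofReal_le_ofReal ?_
  rw [mul_comm]
  exact mul_le_mul_of_nonneg_right h hT.le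

theorem vv_mono {v w : ℝ} (hv : 0 ≤ v) (hvw : v ≤ w) : vv v ≤ vv w := by
  unfold vv
  have h1 : v ^ 2 ≤ w ^ 2 := pow_le_pow_left₀ hv hvw 2
  have h2 : 0 < 1 + v ^ 2 / 4 := by positivity
  exact div_le_div_of_nonneg_right (Real.log_le_log h2 (by linarith)) (by norm_num)

theorem lawu_proof : S_CDFU → S_PERSU → S_LAWU := by
  intro hC hP v0 v1 hv0 hv01 ε hε
  obtain ⟨e, ε', he, hε', hP1⟩ := hP (vv v0).toNNReal (vv v1).toNNReal
    (Real.toNNReal_pos.2 (vv_pos hv0.ne')) (Real.toNNReal_le_toNNReal (vv_mono hv0.le hv01)) ε hε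
  obtain ⟨K, δ, T0, hK, hδ, hT0, hC1⟩ := hC v0 v1 hv0 hv01 ε' hε'
  refine ⟨e, K, δ, T0, he, hK, hδ, fun v hv1 hv2 T hT r hr hKr hrδ a b => ?_⟩
  obtain ⟨hX, hp, hcdf⟩ := hC1 v hv1 hv2 T hT r hr hKr hrδ
  have hTpos : 0 < T := by linarith
  obtain ⟨h1, h2⟩ := hP1 (vv v).toNNReal (Real.toNNReal_le_toNNReal (vv_mono hv0.le hv1))
    (Real.toNNReal_le_toNNReal (vv_mono (hv0.le.trans hv1) hv2)) (law T (XF (Gv v r) T)) hp hcdf a b
  refine ⟨vol_le T hTpos _ hX hp _ (meas_SS _ _) _ h1, ?_⟩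
  have h3 : (law T (XF (Gv v r) T)).real (SS (a + e) (b - e))ᶜ ≤
      1 - (nu v).real (SS a b) + ε := by
    rw [measureReal_compl (meas_SS _ _), probReal_univ]
    have h4 : (ProbabilityTheory.gaussianReal 0 (vv v).toNNReal).real (SS a b) =
        (nu v).real (SS a b) := rfl
    linarith
  exact vol_le T hTpos _ hX hp _ (meas_SS _ _).compl _ h3

end Pool.Agent.H353.GP.U
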